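import Mathlib

/-!
# The tipsy cop and robber game: a graph on which the cop must move away from the robber
-/

namespace Pool.Agent.X258.TPS

open SimpleGraph Finset

section General

variable {V : Type} (G : SimpleGraph V) [G.LocallyFinite]

/-- The average of `f` over the neighbours of `u`. -/
noncomputable def avg (u : V) (f : V → ℝ) : ℝ := (∑ w ∈ G.neighborFinset u, f w) / (G.degree u)

open Classical in
/-- `cap c r tc tr cs rs n s u v`: the probability that the cop and the robber, who are at `u` and
`v` at time `s` and use the strategies `cs` and `rs`, meet at one of the times `s, …, s + n`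
(computed by conditioning on the first step). -/
noncomputable def cap (c r tc tr : ℝ) (cs rs : ℕ → V → V → V) : ℕ → ℕ → V → V → ℝ
  | 0, _, u, v => if u = v then 1 else 0
  | n + 1, s, u, v => if u = v then 1 else
      c * cap c r tc tr cs rs n (s + 1) (cs s u v) v +
      r * cap c r tc tr cs rs n (s + 1) u (rs s u v) +
      tc * avg G u (fun w => cap c r tc tr cs rs n (s + 1) w v) +
      tr * avg G v (fun w => cap c r tc tr cs rs n (s + 1) u w)

/-- A cop strategy: stay or move to a neighbour. -/
def IsCop (cs : ℕ → V → V → V) : Prop := ∀ s u v, cs s u v = u ∨ G.Adj u (cs s u v)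

/-- A robber strategy: move to a neighbour. -/
def IsRob (rs : ℕ → V → V → V) : Prop := ∀ s u v, G.Adj v (rs s u v)

/-- The cop strategy `cs` is winning from `(u, v)`: against every robber strategy the
probabilities of capture within `n` steps tend to `1`. -/
def Winning (c r tc tr : ℝ) (cs : ℕ → V → V → V) (u v : V) : Prop :=
  ∀ rs, IsRob G rs →
    Filter.Tendsto (fun n => cap G c r tc tr cs rs n 0 u v) Filter.atTop (nhds 1)

/-- The sober moves never increase the distance to the robber. -/
def MonotoneCop (cs : ℕ → V → V → V) : Prop := ∀ s u v, G.dist (cs s u v) v ≤ G.dist u v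

variable {G}

theorem avg_mono {u : V} {f g : V → ℝ} (h : ∀ w, G.Adj u w → f w ≤ g w) :
    avg G u f ≤ avg G u g := by
  unfold avg
  refine div_le_div_of_nonneg_right (sum_le_sum fun w hw => h w ?_) (Nat.cast_nonneg _)
  exact (G.mem_neighborFinset u w).1 hw

theorem avg_const {u : V} (hu : 0 < G.degree u) (a : ℝ) : avg G u (fun _ => a) = a := by
  unfold avg
  rw [sum_const, card_neighborFinset_eq_degree, nsmul_eq_mul]
  have : (G.degree u : ℝ) ≠ 0 := by exact_mod_cast hu.ne'
  field_simp

theorem avg_aff {u : V} (hu : 0 < G.degree u) (a b : ℝ) (f : V → ℝ) :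
    avg G u (fun w => a * (b - f w)) = a * (b - avg G u f) := by
  unfold avg
  have : (G.degree u : ℝ) ≠ 0 := by exact_mod_cast hu.ne'
  rw [← mul_sum, sum_sub_distrib, sum_const, card_neighborFinset_eq_degree, nsmul_eq_mul]
  field_simp

theorem cap_mem (c r tc tr : ℝ) (hc : 0 ≤ c) (hr : 0 ≤ r) (htc : 0 ≤ tc) (htr : 0 ≤ tr)
    (h1 : c + r + tc + tr = 1) (cs rs : ℕ → V → V → V) (n : ℕ) :
    ∀ s u v, 0 ≤ cap G c r tc tr cs rs n s u v ∧ cap G c r tc tr cs rs n s u v ≤ 1 := by
  have havg : ∀ (u : V) (f : V → ℝ), (∀ w, 0 ≤ f w ∧ f w ≤ 1) → 0 ≤ avg G u f ∧ avg G u f ≤ 1 := by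
    intro u f hf
    rcases Nat.eq_zero_or_pos (G.degree u) with hd | hd
    · unfold avg
      rw [hd]; simp
    · constructor
      · have := avg_mono (G := G) (u := u) (f := fun _ => 0) (g := f) (fun w _ => (hf w).1)
        rwa [avg_const hd] at this
      · have := avg_mono (G := G) (u := u) (f := f) (g := fun _ => 1) (fun w _ => (hf w).2)
        rwa [avg_const hd] at this
  induction n with
  | zero =>
    intro s u v
    unfold cap
    split_ifs <;> norm_num
  | succ n ih =>
    intro s u v
    unfold cap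
    split_ifs
    · norm_num
    · have e1 := ih (s + 1) (cs s u v) v
      have e2 := ih (s + 1) u (rs s u v)
      have e3 := havg u (fun w => cap G c r tc tr cs rs n (s + 1) w v) (fun w => ih (s + 1) w v)
      have e4 := havg v (fun w => cap G c r tc tr cs rs n (s + 1) u w) (fun w => ih (s + 1) u w)
      constructor
      · have := mul_nonneg hc e1.1
        have := mul_nonneg hr e2.1
        have := mul_nonneg htc e3.1
        have := mul_nonneg htr e4.1
        linarith
      · have := mul_le_mul_of_nonneg_left e1.2 hc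
        have := mul_le_mul_of_nonneg_left e2.2 hr
        have := mul_le_mul_of_nonneg_left e3.2 htc
        have := mul_le_mul_of_nonneg_left e4.2 htr
        linarith

end General

/-! ### The graph -/

/-- The number of vertices of the layer `n + 1`. -/
def K (n : ℕ) : ℕ := 2 ^ ((n + 3) ^ 2)

theorem K_pos (n : ℕ) : 0 < K n := Nat.pow_pos (by norm_num)

/-- The vertices: `A n i` form the layer `n + 1`, `Gt n` is its gate, and `B 0, B 1, …` is a
ray; `B 0` is the robber's vertex. -/
inductive Vx
  | A (n : ℕ) (i : Fin (K n))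
  | Gt (n : ℕ)
  | B (k : ℕ)

open Vx

/-- The height. -/
def ht : Vx → ℕ
  | A n _ => n + 1
  | Gt n => n + 2
  | B k => k

/-- The edges, upwards. -/
def Up : Vx → Vx → Prop
  | A n _, A m _ => m = n + 1
  | B k, A n _ => k = 0 ∧ n = 0
  | A n _, Gt m => m = n
  | Gt n, B k => k = n + 3
  | B k, B l => l = k + 1
  | _, _ => False

theorem Up.ht_eq {x y : Vx} (h : Up x y) : ht y = ht x + 1 := by
  rcases x with ⟨n, i⟩ | n | k <;> rcases y with ⟨m, j⟩ | m | l <;>
    simp only [Up, ht] at h ⊢ <;> omega

/-- The graph. -/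
def Ex : SimpleGraph Vx where
  Adj x y := Up x y ∨ Up y x
  symm := ⟨fun _ _ h => h.symm⟩
  loopless := ⟨fun x h => by rcases h with h | h <;> have := h.ht_eq <;> omega⟩

theorem adj_ht {x y : Vx} (h : Ex.Adj x y) : ht y = ht x + 1 ∨ ht x = ht y + 1 := by
  rcases h with h | h
  · exact Or.inl h.ht_eq
  · exact Or.inr h.ht_eq

theorem finite_ht (N : ℕ) : {y : Vx | ht y ≤ N}.Finite := by
  refine Set.Finite.subset (s := (⋃ n ∈ Set.Iic N, Set.range (A n)) ∪ (Gt '' Set.Iic N) ∪
    (B '' Set.Iic N)) ?_ ?_
  · refine ((Set.Finite.biUnion (Set.finite_Iic N) fun n _ => Set.finite_range _).union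
      ((Set.finite_Iic N).image _)).union ((Set.finite_Iic N).image _)
  · rintro (⟨n, i⟩ | n | k) h
    · left; left
      simp only [Set.mem_iUnion]
      refine ⟨n, ?_, ⟨i, rfl⟩⟩
      simp only [Set.mem_ofPred_eq, ht] at h
      simp only [Set.mem_Iic]; omega
    · left; right
      refine ⟨n, ?_, rfl⟩
      simp only [Set.mem_ofPred_eq, ht] at h
      simp only [Set.mem_Iic]; omega
    · right
      exact ⟨k, h, rfl⟩

noncomputable instance : Ex.LocallyFinite := fun x => by
  have : (Ex.neighborSet x).Finite := by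
    refine (finite_ht (ht x + 1)).subset fun y hy => ?_
    rcases adj_ht hy with h | h
    · exact h.le
    · simp only [Set.mem_ofPred_eq]; omega
  exact this.fintype

theorem reach (x : Vx) : Ex.Reachable x (B 0) := by
  have hA : ∀ n (i : Fin (K n)), Ex.Reachable (A n i) (B 0) := by
    intro n
    induction n with
    | zero =>
      intro i
      exact (show Ex.Adj (A 0 i) (B 0) from Or.inr ⟨rfl, rfl⟩).reachable
    | succ n ih =>
      intro i
      have h : Ex.Adj (A (n + 1) i) (A n ⟨0, K_pos n⟩) := Or.inr (rfl : n + 1 = n + 1)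
      exact h.reachable.trans (ih _)
  have hB : ∀ k, Ex.Reachable (B k) (B 0) := by
    intro k
    induction k with
    | zero => exact Reachable.refl _
    | succ k ih =>
      have h : Ex.Adj (B (k + 1)) (B k) := Or.inr (rfl : k + 1 = k + 1)
      exact h.reachable.trans ih
  rcases x with ⟨n, i⟩ | n | k
  · exact hA n i
  · have h : Ex.Adj (Gt n) (B (n + 3)) := Or.inl (rfl : n + 3 = n + 3)
    exact h.reachable.trans (hB _)
  · exact hB k

theorem connected_Ex : Ex.Connected := by
  have : Nonempty Vx := ⟨B 0⟩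
  exact ⟨fun x y => (reach x).trans (reach y).symm⟩

theorem ht_le_walk {x y : Vx} (w : Ex.Walk x y) : ht x ≤ ht y + w.length := by
  induction w with
  | nil => simp
  | cons h w ih =>
    rw [Walk.length_cons]
    rcases adj_ht h with h' | h' <;> omega

theorem ht_le_dist (x : Vx) : ht x ≤ Ex.dist x (B 0) := by
  obtain ⟨w, hw⟩ := (reach x).exists_walk_length_eq_dist
  have := ht_le_walk w
  rw [hw] at this
  simpa [ht] using this

theorem dist_A (n : ℕ) : ∀ i : Fin (K n), Ex.dist (A n i) (B 0) ≤ n + 1 := by
  induction n with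
  | zero =>
    intro i
    exact (dist_eq_one_iff_adj.2 (show Ex.Adj (A 0 i) (B 0) from Or.inr ⟨rfl, rfl⟩)).le
  | succ n ih =>
    intro i
    have h : Ex.Adj (A (n + 1) i) (A n ⟨0, K_pos n⟩) := Or.inr (rfl : n + 1 = n + 1)
    have h1 := dist_eq_one_iff_adj.2 h
    have h2 := connected_Ex.dist_triangle (u := A (n + 1) i) (v := A n ⟨0, K_pos n⟩) (w := B 0)
    have h3 := ih ⟨0, K_pos n⟩
    omega

theorem degree_pos (x : Vx) : 0 < Ex.degree x := by
  rw [degree_pos_iff_exists_adj]
  rcases x with ⟨n, i⟩ | n | k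
  · exact ⟨Gt n, Or.inl (rfl : n = n)⟩
  · exact ⟨B (n + 3), Or.inl (rfl : n + 3 = n + 3)⟩
  · exact ⟨B (k + 1), Or.inl (rfl : k + 1 = k + 1)⟩

end Pool.Agent.X258.TPS
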