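import Pool.Agent.X258.TPS.Game

namespace Pool.Agent.X258.TPS

open SimpleGraph Finset Vx

/-! ### A winning strategy -/

/-- The potential. -/
noncomputable def psi : Vx → ℝ
  | A n _ => n + 13 / 2
  | Gt n => n + 5
  | B k => k

theorem psi_nonneg (x : Vx) : 0 ≤ psi x := by
  rcases x with ⟨n, i⟩ | n | k <;> simp only [psi] <;> positivity

/-- Go to the gate, then to the ray, then down the ray. -/
def S0 : Vx → Vx
  | A n _ => Gt n
  | Gt n => B (n + 3)
  | B 0 => B 0
  | B (k + 1) => B k

theorem S0_cop : IsCop Ex (fun _ u _ => S0 u) := by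
  intro s u v
  rcases u with ⟨n, i⟩ | n | k
  · exact Or.inr (Or.inl (rfl : n = n))
  · exact Or.inr (Or.inl (rfl : n + 3 = n + 3))
  · rcases k with _ | k
    · exact Or.inl rfl
    · exact Or.inr (Or.inr (rfl : k + 1 = k + 1))

theorem avg_le {x : Vx} {M : ℝ} (h : ∀ w, Ex.Adj x w → psi w ≤ M) : avg Ex x psi ≤ M := by
  have := avg_mono (G := Ex) (u := x) (f := psi) (g := fun _ => M) h
  rwa [avg_const (degree_pos x)] at this

theorem nb_B3 (k : ℕ) [DecidableEq Vx] :
    Ex.neighborFinset (B (k + 3)) = {B (k + 2), B (k + 4), Gt k} := by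
  ext w
  rw [mem_neighborFinset, mem_insert, mem_insert, mem_singleton]
  rcases w with ⟨n, i⟩ | n | l
  · simp [Ex, Up]
  · simp only [Ex, Up, reduceCtorEq, false_or, Vx.Gt.injEq]; omega
  · simp only [Ex, Up, reduceCtorEq, or_false, Vx.B.injEq]; omega

theorem nb_B1 [DecidableEq Vx] : Ex.neighborFinset (B 1) = {B 0, B 2} := by
  ext w
  rw [mem_neighborFinset, mem_insert, mem_singleton]
  rcases w with ⟨n, i⟩ | n | l
  · simp [Ex, Up]
  · simp only [Ex, Up, reduceCtorEq, false_or, or_self, iff_false]; omega
  · simp only [Ex, Up, Vx.B.injEq]; omega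

theorem nb_B2 [DecidableEq Vx] : Ex.neighborFinset (B 2) = {B 1, B 3} := by
  ext w
  rw [mem_neighborFinset, mem_insert, mem_singleton]
  rcases w with ⟨n, i⟩ | n | l
  · simp [Ex, Up]
  · simp only [Ex, Up, reduceCtorEq, false_or, or_self, iff_false]; omega
  · simp only [Ex, Up, Vx.B.injEq]; omega

theorem drift (x : Vx) (hx : x ≠ B 0) :
    4 / 9 * psi (S0 x) + 5 / 9 * avg Ex x psi ≤ psi x - 1 / 18 := by
  classical
  rcases x with ⟨n, i⟩ | n | k
  · have h : avg Ex (A n i) psi ≤ n + 15 / 2 := by
      apply avg_le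
      rintro (⟨m, j⟩ | m | l) h
      · have hm : (m : ℝ) ≤ n + 1 := by
          rcases h with h | h
          · simp only [Up] at h
            rw [h]; push_cast; linarith
          · simp only [Up] at h
            rw [h]; push_cast; linarith
        simp only [psi]; linarith
      · rcases h with h | h
        · simp only [Up] at h
          simp only [psi]; rw [h]; linarith
        · exact h.elim
      · rcases h with h | h
        · exact h.elim
        · have : l = 0 := h.1
          simp only [psi]; rw [this]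
          have : (0 : ℝ) ≤ n := Nat.cast_nonneg n
          push_cast; linarith
    simp only [S0, psi] at h ⊢
    linarith
  · have h : avg Ex (Gt n) psi ≤ n + 13 / 2 := by
      apply avg_le
      rintro (⟨m, j⟩ | m | l) h
      · rcases h with h | h
        · exact h.elim
        · have : n = m := h
          simp only [psi]; rw [this]
      · rcases h with h | h <;> exact h.elim
      · rcases h with h | h
        · have : l = n + 3 := h
          simp only [psi]; rw [this]; push_cast; linarith
        · exact h.elim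
    simp only [S0, psi] at h ⊢
    push_cast
    linarith
  · rcases k with _ | _ | _ | k
    · exact absurd rfl hx
    · have h : avg Ex (B (0 + 1)) psi = 1 := by
        unfold avg
        rw [← card_neighborFinset_eq_degree, nb_B1, sum_insert (by simp), sum_singleton,
          card_insert_of_notMem (by simp), card_singleton]
        simp only [psi]; norm_num
      rw [h]
      simp only [S0, psi]; norm_num
    · have h : avg Ex (B (0 + 1 + 1)) psi = 2 := by
        unfold avg
        rw [← card_neighborFinset_eq_degree, nb_B2, sum_insert (by simp), sum_singleton,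
          card_insert_of_notMem (by simp), card_singleton]
        simp only [psi]; norm_num
      rw [h]
      simp only [S0, psi]; norm_num
    · have h : avg Ex (B (k + 1 + 1 + 1)) psi = k + 11 / 3 := by
        unfold avg
        rw [← card_neighborFinset_eq_degree, nb_B3, sum_insert (by simp), sum_insert (by simp),
          sum_singleton, card_insert_of_notMem (by simp), card_insert_of_notMem (by simp),
          card_singleton]
        simp only [psi]
        push_cast
        ring
      rw [h]
      simp only [S0, psi]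
      push_cast
      linarith

/-- Abbreviation: the capture probabilities for the example. -/
noncomputable abbrev cp (cs rs : ℕ → Vx → Vx → Vx) (n s : ℕ) (u : Vx) : ℝ :=
  cap Ex (4 / 9) 0 (5 / 9) 0 cs rs n s u (B 0)

theorem cp_succ (cs rs : ℕ → Vx → Vx → Vx) (n s : ℕ) (u : Vx) (hu : u ≠ B 0) :
    cp cs rs (n + 1) s u = 4 / 9 * cp cs rs n (s + 1) (cs s u (B 0)) +
      5 / 9 * avg Ex u (fun w => cp cs rs n (s + 1) w) := by
  unfold cp
  rw [cap, if_neg hu]
  ring

theorem cp_zero (cs rs : ℕ → Vx → Vx → Vx) (s : ℕ) (u : Vx) (hu : u ≠ B 0) :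
    cp cs rs 0 s u = 0 := by
  unfold cp
  rw [cap, if_neg hu]

theorem cp_mem (cs rs : ℕ → Vx → Vx → Vx) (n s : ℕ) (u : Vx) :
    0 ≤ cp cs rs n s u ∧ cp cs rs n s u ≤ 1 :=
  cap_mem _ _ _ _ (by norm_num) le_rfl (by norm_num) le_rfl (by norm_num) cs rs n s u (B 0)

theorem cp_target (cs rs : ℕ → Vx → Vx → Vx) (n s : ℕ) : cp cs rs n s (B 0) = 1 := by
  unfold cp
  cases n <;> rw [cap, if_pos rfl]

theorem lyapunov (rs : ℕ → Vx → Vx → Vx) (n : ℕ) : ∀ (s : ℕ) (u : Vx),
    (n : ℝ) * (1 - cp (fun _ u _ => S0 u) rs n s u) ≤ 18 * psi u := by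
  induction n with
  | zero =>
    intro s u
    have := psi_nonneg u
    simp only [Nat.cast_zero, zero_mul]
    linarith
  | succ n ih =>
    intro s u
    by_cases hu : u = B 0
    · subst hu
      rw [cp_target]
      have := psi_nonneg (B 0)
      simp only [sub_self, mul_zero]
      linarith
    · have h1 := ih (s + 1) (S0 u)
      have h2 : (n : ℝ) * (1 - avg Ex u (fun w => cp (fun _ u _ => S0 u) rs n (s + 1) w)) ≤
          18 * avg Ex u psi := by
        rw [← avg_aff (degree_pos u) (n : ℝ) 1]
        have h3 : avg Ex u (fun w => (18 : ℝ) * (0 - (- psi w))) = 18 * avg Ex u psi := by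
          unfold avg
          rw [mul_div_assoc', mul_sum]
          congr 1
          exact sum_congr rfl fun w _ => by ring
        rw [← h3]
        apply avg_mono
        intro w _
        have := ih (s + 1) w
        linarith
      have h4 := drift u hu
      have h5 := (cp_mem (fun _ u _ => S0 u) rs (n + 1) s u).1
      have h6 := cp_succ (fun _ u _ => S0 u) rs n s u hu
      set X := cp (fun _ u _ => S0 u) rs (n + 1) s u with hX
      set Y := cp (fun _ u _ => S0 u) rs n (s + 1) (S0 u) with hY
      set Z := avg Ex u (fun w => cp (fun _ u _ => S0 u) rs n (s + 1) w) with hZ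
      have h7 : (n : ℝ) * (1 - X) = 4 / 9 * (n * (1 - Y)) + 5 / 9 * (n * (1 - Z)) := by
        rw [h6]; ring
      push_cast
      nlinarith

theorem S0_winning (u : Vx) : Winning Ex (4 / 9) 0 (5 / 9) 0 (fun _ u _ => S0 u) u (B 0) := by
  intro rs _
  have hlow : ∀ n : ℕ, 0 < n → 1 - 18 * psi u / n ≤ cp (fun _ u _ => S0 u) rs n 0 u := by
    intro n hn
    have h := lyapunov rs n 0 u
    have hn' : (0 : ℝ) < n := by exact_mod_cast hn
    rw [sub_le_comm, le_div_iff₀ hn']
    linarith
  have hlim : Filter.Tendsto (fun n : ℕ => 1 - 18 * psi u / (n : ℝ)) Filter.atTop (nhds 1) := by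
    have := (tendsto_const_div_atTop_nhds_zero_nat (18 * psi u)).const_sub 1
    simpa using this
  refine tendsto_of_tendsto_of_tendsto_of_le_of_le' hlim tendsto_const_nhds ?_ ?_
  · filter_upwards [Filter.eventually_gt_atTop 0] with n hn
    exact hlow n hn
  · exact Filter.Eventually.of_forall fun n => (cp_mem _ _ _ _ _).2

/-! ### Monotone strategies -/

/-- The number of lower neighbours of a vertex of the layer `m + 1`. -/
def Kp : ℕ → ℕ
  | 0 => 1
  | m + 1 => K m

/-- The embedding of the layer. -/
def embA (m : ℕ) : Fin (K m) ↪ Vx := ⟨A m, fun a b h => by simpa using h⟩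

/-- The lower neighbours. -/
def lower : ℕ → Finset Vx
  | 0 => {B 0}
  | m + 1 => (univ : Finset (Fin (K m))).map (embA m)

theorem lower_card (m : ℕ) : (lower m).card ≤ Kp m := by
  rcases m with _ | m
  · simp [lower, Kp]
  · simp [lower, Kp]

theorem numeric (m : ℕ) : 100 * ((Kp m : ℝ) + 1) ≤ K (m + 1) * (9 / 10) ^ m := by
  have h1 : (Kp m : ℝ) ≤ 2 ^ ((m + 2) ^ 2) := by
    rcases m with _ | m
    · norm_num [Kp]
    · simp only [Kp, K]
      push_cast
      exact le_of_eq (by ring_nf)
  have h2 : (K (m + 1) : ℝ) = 2 ^ ((m + 2) ^ 2) * (4096 * 16 ^ m) := by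
    simp only [K]
    push_cast
    rw [show (4096 : ℝ) = 2 ^ 12 by norm_num, show (16 : ℝ) = 2 ^ 4 by norm_num, ← pow_mul,
      ← pow_add, ← pow_add]
    congr 1
    ring
  have h3 : (1 : ℝ) ≤ 16 ^ m * (9 / 10) ^ m := by
    rw [← mul_pow]
    exact one_le_pow₀ (by norm_num)
  have h4 : (1 : ℝ) ≤ 2 ^ ((m + 2) ^ 2) := one_le_pow₀ (by norm_num)
  rw [h2]
  have h5 : (2 : ℝ) ^ ((m + 2) ^ 2) * 4096 ≤
      2 ^ ((m + 2) ^ 2) * 4096 * (16 ^ m * (9 / 10) ^ m) :=
    le_mul_of_one_le_right (by positivity) h3
  nlinarith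

theorem degree_ge (m : ℕ) (i : Fin (K m)) : K (m + 1) ≤ Ex.degree (A m i) := by
  classical
  rw [← card_neighborFinset_eq_degree]
  have h : ((univ : Finset (Fin (K (m + 1)))).image (A (m + 1))).card = K (m + 1) := by
    rw [card_image_of_injective _ (fun a b h => by simpa using h)]
    simp
  rw [← h]
  apply card_le_card
  intro w hw
  obtain ⟨j, _, rfl⟩ := mem_image.1 hw
  rw [mem_neighborFinset]
  exact Or.inl (rfl : m + 1 = m + 1)

theorem avg_bound (m : ℕ) (i : Fin (K m)) (f : Vx → ℝ) (q : ℝ) (hq : 0 ≤ q)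
    (h1 : ∀ w, f w ≤ 1) (h2 : ∀ j, f (A (m + 1) j) ≤ q) :
    avg Ex (A m i) f ≤ q + (9 / 10) ^ m / 100 := by
  classical
  set N := Ex.neighborFinset (A m i) with hN
  have hdeg := degree_ge m i
  have hd : (0 : ℝ) < Ex.degree (A m i) := by exact_mod_cast degree_pos _
  have hsub : N.filter (fun w => ¬ ∃ j, w = A (m + 1) j) ⊆ insert (Gt m) (lower m) := by
    intro w hw
    rw [mem_filter, hN, mem_neighborFinset] at hw
    obtain ⟨hadj, hno⟩ := hw
    rw [mem_insert]
    rcases w with ⟨n, j⟩ | n | l
    · rcases hadj with h | h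
      · have : n = m + 1 := h
        subst this
        exact absurd ⟨j, rfl⟩ hno
      · have : m = n + 1 := h
        subst this
        right
        exact mem_map.2 ⟨j, mem_univ _, rfl⟩
    · rcases hadj with h | h
      · have : n = m := h
        left; rw [this]
      · exact h.elim
    · rcases hadj with h | h
      · exact h.elim
      · obtain ⟨h1, h2⟩ : l = 0 ∧ m = 0 := h
        subst h1; subst h2
        right
        simp [lower]
  have hcard : ((N.filter (fun w => ¬ ∃ j, w = A (m + 1) j)).card : ℝ) ≤ (Kp m : ℝ) + 1 := by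
    have h3 := card_le_card hsub
    have h4 := card_insert_le (Gt m) (lower m)
    have h5 := lower_card m
    have : (N.filter (fun w => ¬ ∃ j, w = A (m + 1) j)).card ≤ Kp m + 1 := by omega
    exact_mod_cast this
  have hsum : ∑ w ∈ N, f w ≤ Ex.degree (A m i) * q +
      ((N.filter (fun w => ¬ ∃ j, w = A (m + 1) j)).card : ℝ) := by
    calc ∑ w ∈ N, f w ≤ ∑ w ∈ N, (q + if ¬ ∃ j, w = A (m + 1) j then (1 : ℝ) else 0) := by
          apply sum_le_sum
          intro w _
          by_cases h : ∃ j, w = A (m + 1) j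
          · rw [if_neg (not_not.2 h)]
            obtain ⟨j, rfl⟩ := h
            have := h2 j; linarith
          · rw [if_pos h]
            have := h1 w; linarith
      _ = _ := by
          rw [sum_add_distrib, sum_const, nsmul_eq_mul, ← sum_filter, sum_const, nsmul_eq_mul,
            mul_one, hN, card_neighborFinset_eq_degree]
  have hnum := numeric m
  have hdeg' : (K (m + 1) : ℝ) ≤ Ex.degree (A m i) := by exact_mod_cast hdeg
  have hpow : (0 : ℝ) ≤ (9 / 10) ^ m := by positivity
  unfold avg
  rw [div_le_iff₀ hd]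
  have h6 : (K (m + 1) : ℝ) * (9 / 10) ^ m ≤ Ex.degree (A m i) * (9 / 10) ^ m :=
    mul_le_mul_of_nonneg_right hdeg' hpow
  nlinarith

theorem monotone_bound (cs rs : ℕ → Vx → Vx → Vx) (hcs : IsCop Ex cs)
    (hmon : MonotoneCop Ex cs) (n : ℕ) : ∀ (s m : ℕ) (i : Fin (K m)),
    cp cs rs n s (A m i) ≤ (9 / 10) ^ (m + 1) := by
  induction n with
  | zero =>
    intro s m i
    rw [cp_zero _ _ _ _ (by simp)]
    positivity
  | succ n ih =>
    intro s m i
    rw [cp_succ _ _ _ _ _ (by simp)]
    have hstep : cp cs rs n (s + 1) (cs s (A m i) (B 0)) ≤ (9 / 10) ^ m := by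
      have h1 := hmon s (A m i) (B 0)
      have h2 := dist_A m i
      have h3 := ht_le_dist (cs s (A m i) (B 0))
      have h4 : ht (cs s (A m i) (B 0)) ≤ m + 1 := by omega
      have h5 := hcs s (A m i) (B 0)
      generalize cs s (A m i) (B 0) = y at h4 h5 ⊢
      rcases h5 with rfl | h5
      · refine (ih (s + 1) m i).trans ?_
        exact pow_le_pow_of_le_one (by norm_num) (by norm_num) (Nat.le_succ m)
      · rcases y with ⟨k, j⟩ | k | l
        · rcases h5 with h | h
          · have : k = m + 1 := h
            simp only [ht] at h4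
            omega
          · have : m = k + 1 := h
            subst this
            exact ih (s + 1) k j
        · rcases h5 with h | h
          · have : k = m := h
            simp only [ht] at h4
            omega
          · exact h.elim
        · rcases h5 with h | h
          · exact h.elim
          · obtain ⟨_, h2⟩ : l = 0 ∧ m = 0 := h
            subst h2
            simpa using (cp_mem cs rs n (s + 1) (B l)).2
    have havg := avg_bound m i (fun w => cp cs rs n (s + 1) w) ((9 / 10) ^ (m + 2))
      (by positivity) (fun w => (cp_mem cs rs n (s + 1) w).2) (fun j => ih (s + 1) (m + 1) j)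
    have e1 : ((9 : ℝ) / 10) ^ (m + 2) = (9 / 10) ^ m * (81 / 100) := by
      rw [pow_add]; norm_num
    have e2 : ((9 : ℝ) / 10) ^ (m + 1) = (9 / 10) ^ m * (9 / 10) := by
      rw [pow_add]; norm_num
    rw [e1] at havg
    rw [e2]
    linarith

theorem not_monotone_winning (cs : ℕ → Vx → Vx → Vx) (hcs : IsCop Ex cs)
    (hmon : MonotoneCop Ex cs) (i : Fin (K 0)) :
    ¬ Winning Ex (4 / 9) 0 (5 / 9) 0 cs (A 0 i) (B 0) := by
  intro h
  have hnb : ∀ v : Vx, ∃ w, Ex.Adj v w := fun v =>
    (degree_pos_iff_exists_adj (G := Ex) (v := v)).1 (degree_pos v)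
  choose nb hnb' using hnb
  have h1 := h (fun _ _ v => nb v) (fun _ _ v => hnb' v)
  have h2 : (1 : ℝ) ≤ 9 / 10 := by
    refine le_of_tendsto' h1 fun n => ?_
    have := monotone_bound cs (fun _ _ v => nb v) hcs hmon n 0 0 i
    simpa using this
  norm_num at h2

end Pool.Agent.X258.TPS
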